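import Mathlib
import Pool.Agent.H672R2.Ram
import Pool.Agent.H672R2.RamLemmas
import Pool.Agent.H672R2.SpaDefs
import Pool.Agent.H672R2.SpaEnc
import Pool.Agent.H672R2.SpaMain

set_option autoImplicit false

namespace Pool.Agent.Results.MP_ef40db_lc.QuadraticTime

open Pool.Agent.H672R2.Ram Pool.Agent.H672R2.Spa

/-- There is one program for the random access machine which, started on (the encoding of) any
instance of the student-project allocation problem with lower quotas, stops after at most
`8010 * (size + 1) ^ 2` steps and either outputs a stable matching that respects all lower quotas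
(register `3` holds `2`, and column `0` of array `8` holds the matching), or correctly reports that
there is none (register `3` holds `1`). -/
theorem result : ∃ p : Prog, ∀ I : Inst, ∃ (m : Mem) (t : ℕ),
    Runs p (encode I) m t ∧
    (∀ (m' : Mem) (t' : ℕ), Runs p (encode I) m' t' → m' = m ∧ t' = t) ∧
    t ≤ 8010 * (I.size + 1) ^ 2 ∧
    ((m.v 3 = 2 ∧ ∃ M : I.Asg, I.Good M ∧ ∀ i : Fin I.n1, m.a 8 i 0 = code (M i)) ∨
      (m.v 3 = 1 ∧ ¬ ∃ M : I.Asg, I.Good M)) := by
  refine ⟨algo, fun I => ?_⟩
  obtain ⟨m, t, hr, ht, hs⟩ := algo_correct I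
  exact ⟨m, t, hr, fun m' t' h => hr.unique h, ht, hs.symm⟩

end Pool.Agent.Results.MP_ef40db_lc.QuadraticTime
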